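import Pool.Agent.Helper61.P3.St3

set_option autoImplicit false

open MeasureTheory Set Filter Topology
open scoped ENNReal RealInnerProductSpace

namespace Pool.Agent.Helper27.P3

open Pool.Agent.Helper61.P3 Pool.Agent.Helper20.RG Pool.Agent.Helper20.EQ
open Pool.Agent.Helper68.LM (Pl BB Bd Av HL ft fm DQ)
open Pool.Agent.Helper68.EP (elt GapP)

/-! ## Numbers -/

theorem et_eq (ρ : ℕ) : et ρ = (2 : ℝ) ^ (-((ρ : ℝ) + 1)) := by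
  unfold et
  rw [← Real.rpow_intCast]
  congr 1
  push_cast
  ring

theorem et_pos (ρ : ℕ) : 0 < et ρ := by
  rw [et_eq]; positivity

theorem et_sq_inv (ρ : ℕ) : 1 / (et ρ) ^ 2 = (2 : ℝ) ^ (2 * (ρ : ℝ) + 2) := by
  rw [et_eq, ← Real.rpow_natCast, ← Real.rpow_mul (by norm_num), one_div, ← Real.rpow_neg (by norm_num)]
  congr 1
  push_cast
  ring

theorem et_le_one (ρ : ℕ) : et ρ ≤ 1 := by
  rw [et_eq]
  apply Real.rpow_le_one_of_one_le_of_nonpos (by norm_num)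
  have : (0 : ℝ) ≤ ρ := Nat.cast_nonneg _
  linarith

theorem natdiv_le (u : ℕ) (hu : 8 ≤ u) : ((u / 10 : ℕ) : ℝ) ≤ (2 : ℝ) ^ (3 + (u : ℝ) / 8) := by
  have h1 : ((u / 10 : ℕ) : ℝ) ≤ u := by exact_mod_cast Nat.div_le_self _ _
  have h8 : (8 : ℝ) ≤ u := by exact_mod_cast hu
  have h2 : 1 + (u : ℝ) / 8 * 1 ≤ (1 + 1) ^ ((u : ℝ) / 8) :=
    one_add_mul_self_le_rpow_one_add (by norm_num) (by linarith)
  have h3 : (2 : ℝ) ^ (3 + (u : ℝ) / 8) = 8 * 2 ^ ((u : ℝ) / 8) := by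
    rw [Real.rpow_add (by norm_num)]
    norm_num
  rw [h3]
  norm_num at h2
  linarith

theorem num1 (u s ρ n : ℕ) (C : ℝ) (hC : 0 ≤ C) (hn : 10 ≤ n) (hu : 1000 ≤ u) (hs : 8 * u < s)
    (hρ : 1000 * ρ ≤ u) :
    C * 4 ^ u * (48 * (2 : ℝ) ^ (-((s : ℝ) / 2)) / (2 : ℝ) ^ (-((s : ℝ) / 4))) ^ (n - 1) /
      ((2 : ℝ) ^ (-((s : ℝ) / 4)) * (et ρ) ^ 2) * 2 ^ (3 * u) ≤ C * (2 : ℝ) ^ (-((s : ℝ) / 20)) := by
  have hu' : (1000 : ℝ) ≤ u := by exact_mod_cast hu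
  have hs' : 8 * (u : ℝ) < s := by exact_mod_cast hs
  have hρ' : 1000 * (ρ : ℝ) ≤ u := by exact_mod_cast hρ
  have e1 : (4 : ℝ) ^ u = (2 : ℝ) ^ (2 * (u : ℝ)) := by
    rw [Real.rpow_mul (by norm_num), Real.rpow_natCast]
    norm_num
  have e2 : (2 : ℝ) ^ (3 * u) = (2 : ℝ) ^ (3 * (u : ℝ)) := by
    rw [← Real.rpow_natCast]
    congr 1
    push_cast
    ring
  have e3 : (2 : ℝ) ^ (-((s : ℝ) / 2)) / (2 : ℝ) ^ (-((s : ℝ) / 4)) = (2 : ℝ) ^ (-((s : ℝ) / 4)) := by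
    rw [← Real.rpow_sub (by norm_num)]
    congr 1
    ring
  have e4 : 48 * (2 : ℝ) ^ (-((s : ℝ) / 2)) / (2 : ℝ) ^ (-((s : ℝ) / 4)) ≤
      (2 : ℝ) ^ (6 - (s : ℝ) / 4) := by
    rw [mul_div_assoc, e3, sub_eq_add_neg, Real.rpow_add (by norm_num)]
    have : (48 : ℝ) ≤ 2 ^ (6 : ℝ) := by norm_num
    gcongr
  have e5 : (48 * (2 : ℝ) ^ (-((s : ℝ) / 2)) / (2 : ℝ) ^ (-((s : ℝ) / 4))) ^ (n - 1) ≤
      (2 : ℝ) ^ (9 * (6 - (s : ℝ) / 4)) := by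
    calc (48 * (2 : ℝ) ^ (-((s : ℝ) / 2)) / (2 : ℝ) ^ (-((s : ℝ) / 4))) ^ (n - 1)
        ≤ ((2 : ℝ) ^ (6 - (s : ℝ) / 4)) ^ (n - 1) := by
          apply pow_le_pow_left₀ (by positivity) e4
      _ ≤ ((2 : ℝ) ^ (6 - (s : ℝ) / 4)) ^ 9 := by
          apply pow_le_pow_of_le_one (by positivity)
          · apply Real.rpow_le_one_of_one_le_of_nonpos (by norm_num)
            linarith
          · omega
      _ = (2 : ℝ) ^ (9 * (6 - (s : ℝ) / 4)) := by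
          rw [← Real.rpow_natCast, ← Real.rpow_mul (by norm_num)]
          congr 1
          push_cast
          ring
  have e6 : 1 / ((2 : ℝ) ^ (-((s : ℝ) / 4)) * (et ρ) ^ 2) = (2 : ℝ) ^ ((s : ℝ) / 4 + (2 * (ρ : ℝ) + 2)) := by
    rw [one_div, mul_inv, ← one_div ((et ρ) ^ 2), et_sq_inv, ← Real.rpow_neg (by norm_num), neg_neg,
      ← Real.rpow_add (by norm_num)]
  calc C * 4 ^ u * (48 * (2 : ℝ) ^ (-((s : ℝ) / 2)) / (2 : ℝ) ^ (-((s : ℝ) / 4))) ^ (n - 1) /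
      ((2 : ℝ) ^ (-((s : ℝ) / 4)) * (et ρ) ^ 2) * 2 ^ (3 * u)
      = C * ((4 : ℝ) ^ u * (48 * (2 : ℝ) ^ (-((s : ℝ) / 2)) / (2 : ℝ) ^ (-((s : ℝ) / 4))) ^ (n - 1) *
        (1 / ((2 : ℝ) ^ (-((s : ℝ) / 4)) * (et ρ) ^ 2)) * 2 ^ (3 * u)) := by ring
    _ ≤ C * ((2 : ℝ) ^ (2 * (u : ℝ)) * (2 : ℝ) ^ (9 * (6 - (s : ℝ) / 4)) *
        (2 : ℝ) ^ ((s : ℝ) / 4 + (2 * (ρ : ℝ) + 2)) * (2 : ℝ) ^ (3 * (u : ℝ))) := by
        rw [e1, e2, e6]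
        gcongr
    _ = C * (2 : ℝ) ^ (2 * (u : ℝ) + 9 * (6 - (s : ℝ) / 4) + ((s : ℝ) / 4 + (2 * (ρ : ℝ) + 2)) +
        3 * (u : ℝ)) := by
        rw [Real.rpow_add (by norm_num) _ (3 * (u : ℝ)),
          Real.rpow_add (by norm_num) _ ((s : ℝ) / 4 + (2 * (ρ : ℝ) + 2)),
          Real.rpow_add (by norm_num) _ (9 * (6 - (s : ℝ) / 4))]
    _ ≤ C * (2 : ℝ) ^ (-((s : ℝ) / 20)) := by
        apply mul_le_mul_of_nonneg_left _ hC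
        apply Real.rpow_le_rpow_of_exponent_le (by norm_num)
        linarith

theorem num2 (u s ρ : ℕ) (m C : ℝ) (hC : 0 ≤ C) (hu : 1000 ≤ u) (hs : 8 * u < s)
    (hρ : 1000 * ρ ≤ u) (hm : (2 : ℝ) ^ ((1999 / 2000 : ℝ) * u) ≤ m) :
    ((u / 10 : ℕ) : ℝ) * (C * (2 : ℝ) ^ (-((s : ℝ) / 4)) / (m ^ 3 * (et ρ) ^ 2) * (2 : ℝ) ^ (u + 1)) ≤
      C * (2 : ℝ) ^ (-((s : ℝ) / 20)) * (2 : ℝ) ^ (-(3 * (u : ℝ))) := by
  have hu' : (1000 : ℝ) ≤ u := by exact_mod_cast hu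
  have hs' : 8 * (u : ℝ) < s := by exact_mod_cast hs
  have hρ' : 1000 * (ρ : ℝ) ≤ u := by exact_mod_cast hρ
  have h2 : (0 : ℝ) < (2 : ℝ) ^ ((1999 / 2000 : ℝ) * u) := by positivity
  have hm0 : 0 < m := lt_of_lt_of_le h2 hm
  have e0 := et_pos ρ
  have e1 : 1 / m ^ 3 ≤ (2 : ℝ) ^ (-((5997 / 2000 : ℝ) * u)) := by
    have h3 : (2 : ℝ) ^ (-((5997 / 2000 : ℝ) * u)) = 1 / ((2 : ℝ) ^ ((1999 / 2000 : ℝ) * u)) ^ 3 := by
      rw [one_div, ← Real.rpow_natCast, ← Real.rpow_mul (by norm_num), ← Real.rpow_neg (by norm_num)]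
      congr 1
      push_cast
      ring
    rw [h3]
    apply one_div_le_one_div_of_le (by positivity)
    exact pow_le_pow_left₀ h2.le hm 3
  have e2 : 1 / (m ^ 3 * (et ρ) ^ 2) ≤ (2 : ℝ) ^ (-((5997 / 2000 : ℝ) * u)) * (2 : ℝ) ^ (2 * (ρ : ℝ) + 2) := by
    rw [← et_sq_inv, ← one_div_mul_one_div]
    gcongr
  have e3 : (2 : ℝ) ^ (u + 1) = (2 : ℝ) ^ ((u : ℝ) + 1) := by
    rw [← Real.rpow_natCast]
    congr 1
    push_cast
    ring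
  calc ((u / 10 : ℕ) : ℝ) * (C * (2 : ℝ) ^ (-((s : ℝ) / 4)) / (m ^ 3 * (et ρ) ^ 2) * (2 : ℝ) ^ (u + 1))
      = C * (((u / 10 : ℕ) : ℝ) * (2 : ℝ) ^ (-((s : ℝ) / 4)) * (1 / (m ^ 3 * (et ρ) ^ 2)) *
        (2 : ℝ) ^ (u + 1)) := by ring
    _ ≤ C * ((2 : ℝ) ^ (3 + (u : ℝ) / 8) * (2 : ℝ) ^ (-((s : ℝ) / 4)) *
        ((2 : ℝ) ^ (-((5997 / 2000 : ℝ) * u)) * (2 : ℝ) ^ (2 * (ρ : ℝ) + 2)) * (2 : ℝ) ^ ((u : ℝ) + 1)) := by
        rw [e3]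
        have := natdiv_le u (by omega)
        gcongr
    _ = C * (2 : ℝ) ^ (3 + (u : ℝ) / 8 + -((s : ℝ) / 4) + (-((5997 / 2000 : ℝ) * u) + (2 * (ρ : ℝ) + 2)) +
        ((u : ℝ) + 1)) := by
        rw [Real.rpow_add (by norm_num) _ ((u : ℝ) + 1), Real.rpow_add (by norm_num) _
          (-((5997 / 2000 : ℝ) * u) + (2 * (ρ : ℝ) + 2)), Real.rpow_add (by norm_num) _ (-((s : ℝ) / 4)),
          Real.rpow_add (by norm_num) (-((5997 / 2000 : ℝ) * u))]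
    _ ≤ C * (2 : ℝ) ^ (-((s : ℝ) / 20) + -(3 * (u : ℝ))) := by
        apply mul_le_mul_of_nonneg_left _ hC
        apply Real.rpow_le_rpow_of_exponent_le (by norm_num)
        linarith
    _ = C * (2 : ℝ) ^ (-((s : ℝ) / 20)) * (2 : ℝ) ^ (-(3 * (u : ℝ))) := by
        rw [Real.rpow_add (by norm_num), mul_assoc]

theorem num3 (u s ρ ρ' : ℕ) (m' Λ' CL CS : ℝ) (hCL : 0 ≤ CL) (hCS : 0 ≤ CS) (hΛ : 0 ≤ Λ') (hΛ4 : Λ' ≤ 4)
    (hu : 1000 ≤ u) (hs : 8 * u < s) (hρ : 1000 * ρ ≤ u) (hρ' : 1000 * ρ' ≤ u + s)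
    (hm : (2 : ℝ) ^ ((1999 / 2000 : ℝ) * ((u : ℝ) + s)) ≤ m') :
    ((u / 10 : ℕ) : ℝ) * (CL * Λ' / (m' * (et ρ') ^ 2) * (1024 / (2 : ℝ) ^ (-((s : ℝ) / 2)) *
      (64 / (et ρ) ^ 2 * CS))) ≤
      4 * 1024 * 64 * CL * CS * (2 : ℝ) ^ (-((s : ℝ) / 20)) * (2 : ℝ) ^ (-(3 * (u : ℝ))) := by
  have hu' : (1000 : ℝ) ≤ u := by exact_mod_cast hu
  have hs' : 8 * (u : ℝ) < s := by exact_mod_cast hs
  have hρ1 : 1000 * (ρ : ℝ) ≤ u := by exact_mod_cast hρ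
  have hρ2 : 1000 * (ρ' : ℝ) ≤ u + s := by exact_mod_cast hρ'
  have h2 : (0 : ℝ) < (2 : ℝ) ^ ((1999 / 2000 : ℝ) * ((u : ℝ) + s)) := by positivity
  have hm0 : 0 < m' := lt_of_lt_of_le h2 hm
  have e0 := et_pos ρ
  have e0' := et_pos ρ'
  have e1 : 1 / m' ≤ (2 : ℝ) ^ (-((1999 / 2000 : ℝ) * ((u : ℝ) + s))) := by
    rw [Real.rpow_neg (by norm_num), ← one_div]
    exact one_div_le_one_div_of_le h2 hm
  have e2 : 1 / (m' * (et ρ') ^ 2) ≤ (2 : ℝ) ^ (-((1999 / 2000 : ℝ) * ((u : ℝ) + s))) *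
      (2 : ℝ) ^ (2 * (ρ' : ℝ) + 2) := by
    rw [← et_sq_inv, ← one_div_mul_one_div]
    gcongr
  have e3 : 1 / (2 : ℝ) ^ (-((s : ℝ) / 2)) = (2 : ℝ) ^ ((s : ℝ) / 2) := by
    rw [Real.rpow_neg (by norm_num), one_div, inv_inv]
  calc ((u / 10 : ℕ) : ℝ) * (CL * Λ' / (m' * (et ρ') ^ 2) * (1024 / (2 : ℝ) ^ (-((s : ℝ) / 2)) *
      (64 / (et ρ) ^ 2 * CS)))
      = (1024 * 64 * CL * CS) * (Λ' * (((u / 10 : ℕ) : ℝ) * (1 / (m' * (et ρ') ^ 2)) *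
        (1 / (2 : ℝ) ^ (-((s : ℝ) / 2))) * (1 / (et ρ) ^ 2))) := by ring
    _ ≤ (1024 * 64 * CL * CS) * (4 * ((2 : ℝ) ^ (3 + (u : ℝ) / 8) *
        ((2 : ℝ) ^ (-((1999 / 2000 : ℝ) * ((u : ℝ) + s))) * (2 : ℝ) ^ (2 * (ρ' : ℝ) + 2)) *
        (2 : ℝ) ^ ((s : ℝ) / 2) * (2 : ℝ) ^ (2 * (ρ : ℝ) + 2))) := by
        rw [e3, et_sq_inv]
        have := natdiv_le u (by omega)
        gcongr
    _ = (4 * 1024 * 64 * CL * CS) * (2 : ℝ) ^ (3 + (u : ℝ) / 8 +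
        (-((1999 / 2000 : ℝ) * ((u : ℝ) + s)) + (2 * (ρ' : ℝ) + 2)) + (s : ℝ) / 2 + (2 * (ρ : ℝ) + 2)) := by
        rw [Real.rpow_add (by norm_num) _ (2 * (ρ : ℝ) + 2), Real.rpow_add (by norm_num) _ ((s : ℝ) / 2),
          Real.rpow_add (by norm_num) _ (-((1999 / 2000 : ℝ) * ((u : ℝ) + s)) + (2 * (ρ' : ℝ) + 2)),
          Real.rpow_add (by norm_num) (-((1999 / 2000 : ℝ) * ((u : ℝ) + s)))]
        ring
    _ ≤ (4 * 1024 * 64 * CL * CS) * (2 : ℝ) ^ (-((s : ℝ) / 20) + -(3 * (u : ℝ))) := by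
        apply mul_le_mul_of_nonneg_left _ (by positivity)
        apply Real.rpow_le_rpow_of_exponent_le (by norm_num)
        linarith
    _ = 4 * 1024 * 64 * CL * CS * (2 : ℝ) ^ (-((s : ℝ) / 20)) * (2 : ℝ) ^ (-(3 * (u : ℝ))) := by
        rw [Real.rpow_add (by norm_num)]
        ring

/-! ## Measurability and Chebyshev -/

theorem meas_Av (ν : Measure Pl) [SFinite ν] (t : ℝ) (g : Pl → ℝ) (hg : Measurable g) :
    Measurable (Av ν t g) := by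
  have h : StronglyMeasurable (fun p : Pl × Pl => g (p.1 - t • p.2)) :=
    (hg.comp (by fun_prop)).stronglyMeasurable
  exact (h.integral_prod_right').measurable

instance (s : ℝ) : SFinite (sg s) := by unfold sg; infer_instance

instance : SFinite bx := by unfold bx; infer_instance

theorem meas_Y (s : ℝ) (c : Pl) (m : ℕ) (ℓ : ℝ) (k : ℤ) (g : Pl → ℝ) (hg : Measurable g) :
    Measurable (Y s c m ℓ k g) := by
  have h1 := meas_Av bx (2 * (2 : ℝ) ^ (k - (m : ℤ))) g hg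
  have h2 := meas_Av (sg s) ((2 : ℝ) ^ k * ℓ) _ h1
  exact h2.comp (measurable_id.sub_const _)

theorem meas_Zc (c : Pl) (φ τ : ℝ → ℝ) (u w : ℕ) (k : ℤ) (j : ℕ) (g : Pl → ℝ) (hg : Measurable g) :
    Measurable (Zc c φ τ u w k j g) :=
  (meas_Y _ _ _ _ _ _ hg).sub (meas_Y _ _ _ _ _ _ hg)

theorem cheb (f : Pl → ℝ) (hf : Measurable f) (a : ℝ) (ha : 0 < a) :
    volume {x | a < |f x|} ≤ ENNReal.ofReal (1 / a ^ 2) * ∫⁻ x, ‖f x‖ₑ ^ 2 := by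
  have hm : Measurable (fun x => ‖f x‖ₑ ^ 2) := by fun_prop
  have h1 := mul_meas_ge_le_lintegral (μ := (volume : Measure Pl)) hm (ENNReal.ofReal (a ^ 2))
  have h2 : {x | a < |f x|} ⊆ {x | ENNReal.ofReal (a ^ 2) ≤ ‖f x‖ₑ ^ 2} := by
    intro x hx
    show ENNReal.ofReal (a ^ 2) ≤ ‖f x‖ₑ ^ 2
    rw [ENNReal.ofReal_pow ha.le, Real.enorm_eq_ofReal_abs]
    exact pow_le_pow_left₀ (zero_le) (ENNReal.ofReal_le_ofReal (le_of_lt hx)) 2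
  have h3 : ENNReal.ofReal (1 / a ^ 2) * ENNReal.ofReal (a ^ 2) = 1 := by
    rw [← ENNReal.ofReal_mul (by positivity), one_div, inv_mul_cancel₀ (by positivity), ENNReal.ofReal_one]
  calc volume {x | a < |f x|} ≤ volume {x | ENNReal.ofReal (a ^ 2) ≤ ‖f x‖ₑ ^ 2} := measure_mono h2
    _ = ENNReal.ofReal (1 / a ^ 2) * (ENNReal.ofReal (a ^ 2) *
        volume {x | ENNReal.ofReal (a ^ 2) ≤ ‖f x‖ₑ ^ 2}) := by rw [← mul_assoc, h3, one_mul]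
    _ ≤ _ := mul_le_mul_right h1 _

theorem meas_Sq (x : Pl) (r : ℝ) : MeasurableSet (Sq x r) := by
  have h1 : Measurable (fun y : Pl => |y 0 - x 0|) := by fun_prop
  have h2 : Measurable (fun y : Pl => |y 1 - x 1|) := by fun_prop
  exact (measurableSet_le h1 measurable_const).inter (measurableSet_le h2 measurable_const)

theorem loc_bound (N : ℕ) (F : ℕ → Pl → ℝ) (hF : ∀ j, Measurable (F j)) (T S' : Set Pl)
    (hS : MeasurableSet S') (m η B : ℝ) (hm : 0 < m) (hη : 0 < η)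
    (hT : ∀ y ∈ T, m ≤ ({j : ℕ | j < N ∧ η ≤ |F j y|}.ncard : ℝ))
    (hB : ∑ j ∈ Finset.range N, ∫⁻ y in S', ‖F j y‖ₑ ^ 2 ≤ ENNReal.ofReal B) :
    volume (T ∩ S') ≤ ENNReal.ofReal (B / (m * η ^ 2)) := by
  classical
  have hB0 : ENNReal.ofReal B = ENNReal.ofReal (max B 0) := by
    rcases le_total 0 B with h | h
    · rw [max_eq_left h]
    · rw [max_eq_right h, ENNReal.ofReal_of_nonpos h, ENNReal.ofReal_zero]
  have hm1 : ∀ j, Measurable (fun y => ‖F j y‖ₑ ^ 2) := fun j => by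
    have := hF j
    fun_prop
  have hmh : Measurable (fun y => ∑ j ∈ Finset.range N, ‖F j y‖ₑ ^ 2) :=
    Finset.measurable_fun_sum _ (fun j _ => hm1 j)
  have h1 := mul_meas_ge_le_lintegral (μ := (volume : Measure Pl).restrict S') hmh
    (ENNReal.ofReal (m * η ^ 2))
  rw [lintegral_finsetSum _ (fun j _ => hm1 j)] at h1
  have h2 : T ⊆ {y | ENNReal.ofReal (m * η ^ 2) ≤ ∑ j ∈ Finset.range N, ‖F j y‖ₑ ^ 2} := by
    intro y hy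
    show ENNReal.ofReal (m * η ^ 2) ≤ ∑ j ∈ Finset.range N, ‖F j y‖ₑ ^ 2
    have e1 : {j : ℕ | j < N ∧ η ≤ |F j y|} =
        ((Finset.range N).filter (fun j => η ≤ |F j y|) : Finset ℕ) := by
      ext j; simp
    have e2 := hT y hy
    rw [e1, Set.ncard_coe_finset] at e2
    calc ENNReal.ofReal (m * η ^ 2)
        ≤ ENNReal.ofReal ((((Finset.range N).filter (fun j => η ≤ |F j y|)).card : ℝ) * η ^ 2) := by
          apply ENNReal.ofReal_le_ofReal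
          gcongr
      _ = ∑ _j ∈ (Finset.range N).filter (fun j => η ≤ |F j y|), ENNReal.ofReal (η ^ 2) := by
          rw [Finset.sum_const, nsmul_eq_mul, ENNReal.ofReal_mul (by positivity), ENNReal.ofReal_natCast]
      _ ≤ ∑ j ∈ (Finset.range N).filter (fun j => η ≤ |F j y|), ‖F j y‖ₑ ^ 2 := by
          apply Finset.sum_le_sum
          intro j hj
          rw [ENNReal.ofReal_pow hη.le, Real.enorm_eq_ofReal_abs]
          exact pow_le_pow_left₀ (zero_le) (ENNReal.ofReal_le_ofReal (Finset.mem_filter.1 hj).2) 2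
      _ ≤ ∑ j ∈ Finset.range N, ‖F j y‖ₑ ^ 2 :=
          Finset.sum_le_sum_of_subset (Finset.filter_subset _ _)
  have h3 : ENNReal.ofReal (1 / (m * η ^ 2)) * ENNReal.ofReal (m * η ^ 2) = 1 := by
    rw [← ENNReal.ofReal_mul (by positivity), one_div, inv_mul_cancel₀ (by positivity), ENNReal.ofReal_one]
  calc volume (T ∩ S') ≤ volume ({y | ENNReal.ofReal (m * η ^ 2) ≤
        ∑ j ∈ Finset.range N, ‖F j y‖ₑ ^ 2} ∩ S') := measure_mono (inter_subset_inter_left _ h2)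
    _ = (volume.restrict S') {y | ENNReal.ofReal (m * η ^ 2) ≤
        ∑ j ∈ Finset.range N, ‖F j y‖ₑ ^ 2} := (Measure.restrict_apply' hS).symm
    _ = ENNReal.ofReal (1 / (m * η ^ 2)) * (ENNReal.ofReal (m * η ^ 2) *
        (volume.restrict S') {y | ENNReal.ofReal (m * η ^ 2) ≤
        ∑ j ∈ Finset.range N, ‖F j y‖ₑ ^ 2}) := by rw [← mul_assoc, h3, one_mul]
    _ ≤ ENNReal.ofReal (1 / (m * η ^ 2)) * ENNReal.ofReal B := mul_le_mul_right (h1.trans hB) _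
    _ = ENNReal.ofReal (B / (m * η ^ 2)) := by
        rw [← ENNReal.ofReal_mul (by positivity)]
        congr 1
        ring

end Pool.Agent.Helper27.P3
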