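import Pool.Agent.Helper61.P3.St3
import Pool.Agent.Helper27.P3.FARnum

set_option autoImplicit false

open MeasureTheory Set Filter Topology
open scoped ENNReal RealInnerProductSpace

namespace Pool.Agent.Helper27.P3

open Pool.Agent.Helper61.P3 Pool.Agent.Helper20.RG Pool.Agent.Helper20.EQ
open Pool.Agent.Helper68.LM (Pl BB Bd Av HL ft fm DQ)
open Pool.Agent.Helper68.EP (elt GapP)

theorem zpow_sq (k : ℤ) : ((2 : ℝ) ^ k) ^ 2 = (4 : ℝ) ^ k := by
  rw [← zpow_natCast, ← zpow_mul, mul_comm, zpow_mul]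
  norm_num

theorem Sq_mono (x : Pl) (r r' : ℝ) (h : r ≤ r') : Sq x r ⊆ Sq x r' := fun _ hy =>
  ⟨hy.1.trans h, hy.2.trans h⟩

/-- the points which have large density at the top of the window, one scale -/
theorem notTD (hOVL : StOVL) (N N' : ℕ) (F : ℕ → Pl → ℝ) (hF : ∀ j, Measurable (F j)) (k : ℤ) (q : ℕ)
    (Ef : ℕ → Set Pl) (T : Set Pl) (m' η' B D₀ : ℝ) (hm' : 0 < m') (hη' : 0 < η') (hB : 0 ≤ B)
    (hD : 0 < D₀)
    (h1 : ∀ x ∈ T, ENNReal.ofReal (D₀ * (4 : ℝ) ^ (k + 32 * (q : ℤ))) ≤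
      ∑ j ∈ Finset.range N, volume (Ef j ∩ Sq x (4 * (2 : ℝ) ^ (k + 32 * (q : ℤ)))))
    (h2 : ∀ x ∈ T, m' ≤ ({j : ℕ | j < N' ∧ η' ≤ |F j x|}.ncard : ℝ))
    (h3 : ∀ x ∈ T, ∑ j ∈ Finset.range N', ∫⁻ y in Sq x (4 * (2 : ℝ) ^ k), ‖F j y‖ₑ ^ 2 ≤
      ENNReal.ofReal (B * (4 : ℝ) ^ k)) :
    volume T ≤ ENNReal.ofReal (B / (m' * η' ^ 2)) *
      (ENNReal.ofReal (1024 / D₀) * ∑ j ∈ Finset.range N, volume (Ef j)) := by
  classical
  obtain ⟨hcov, -, -, hov⟩ := hOVL
  have hL : (0 : ℝ) < (2 : ℝ) ^ k := by positivity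
  set L : ℝ := (2 : ℝ) ^ k with hLdef
  set r : ℝ := 4 * (2 : ℝ) ^ (k + 32 * (q : ℤ)) with hrdef
  have hr : L ≤ r := by
    have h : (2 : ℝ) ^ k ≤ (2 : ℝ) ^ (k + 32 * (q : ℤ)) :=
      zpow_le_zpow_right₀ (by norm_num) (by omega)
    have h' : (0 : ℝ) < (2 : ℝ) ^ (k + 32 * (q : ℤ)) := by positivity
    rw [hLdef, hrdef]
    linarith
  have hDr : D₀ / 16 * r ^ 2 = D₀ * (4 : ℝ) ^ (k + 32 * (q : ℤ)) := by
    rw [hrdef, mul_pow, zpow_sq]
    ring
  have hov1 := hov N L r (D₀ / 16) (fun j => toMeasurable volume (Ef j)) T hL hr (by positivity)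
    (fun j _ => measurableSet_toMeasurable _ _) (by
      intro x hx
      rw [hDr]
      refine (h1 x hx).trans (Finset.sum_le_sum (fun j _ => ?_))
      exact measure_mono (inter_subset_inter_left _ (subset_toMeasurable _ _)))
  simp only [measure_toMeasurable] at hov1
  have e1 : (64 : ℝ) / (D₀ / 16) = 1024 / D₀ := by
    field_simp
    norm_num
  rw [e1] at hov1
  have hcovT : T ⊆ ⋃ n : ℤ × ℤ, T ∩ Sq (zg L n) (L / 2) := by
    intro x hx
    obtain ⟨n, hn⟩ := hcov L hL x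
    exact mem_iUnion.2 ⟨n, hx, hn⟩
  calc volume T ≤ volume (⋃ n : ℤ × ℤ, T ∩ Sq (zg L n) (L / 2)) := measure_mono hcovT
    _ ≤ ∑' n : ℤ × ℤ, volume (T ∩ Sq (zg L n) (L / 2)) := measure_iUnion_le _
    _ ≤ ∑' n : ℤ × ℤ, ENNReal.ofReal (B / (m' * η' ^ 2)) *
        {n : ℤ × ℤ | (T ∩ Sq (zg L n) (L / 2)).Nonempty}.indicator
          (fun _ => ENNReal.ofReal (L ^ 2)) n := by
        apply ENNReal.tsum_le_tsum
        intro n
        by_cases hn : (T ∩ Sq (zg L n) (L / 2)).Nonempty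
        · obtain ⟨x, hxT, hxS⟩ := hn
          have hmem : n ∈ {n : ℤ × ℤ | (T ∩ Sq (zg L n) (L / 2)).Nonempty} := ⟨x, hxT, hxS⟩
          rw [indicator_of_mem hmem]
          have hsub : Sq (zg L n) (L / 2) ⊆ Sq x (4 * L) := by
            intro y hy
            constructor
            · have a1 := hy.1
              have a2 := hxS.1
              rw [abs_le] at *
              constructor <;> linarith [a1.1, a1.2, a2.1, a2.2]
            · have a1 := hy.2
              have a2 := hxS.2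
              rw [abs_le] at *
              constructor <;> linarith [a1.1, a1.2, a2.1, a2.2]
          have hb := loc_bound N' F hF T (Sq x (4 * L)) (meas_Sq _ _) m' η' (B * (4 : ℝ) ^ k) hm' hη'
            h2 (h3 x hxT)
          refine (measure_mono (inter_subset_inter_right _ hsub)).trans (hb.trans ?_)
          rw [← ENNReal.ofReal_mul (by positivity), hLdef, zpow_sq]
          apply ENNReal.ofReal_le_ofReal
          apply le_of_eq
          ring
        · rw [not_nonempty_iff_eq_empty.1 hn, measure_empty]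
          exact zero_le
    _ = ENNReal.ofReal (B / (m' * η' ^ 2)) * ∑' n : ℤ × ℤ,
        {n : ℤ × ℤ | (T ∩ Sq (zg L n) (L / 2)).Nonempty}.indicator
          (fun _ => ENNReal.ofReal (L ^ 2)) n := ENNReal.tsum_mul_left
    _ ≤ _ := mul_le_mul_right hov1 _

theorem hFAR (hLZB : StLZB) (hBAD : StBAD) (hWIG : StWIG) (hOVL : StOVL) (hWLI : StWLI)
    (hSHQ : StSHQ) : StFAR := by
  classical
  intro φ τ A c hG hA hGap
  obtain ⟨CL, hCL, hLL⟩ := hLZB φ τ A c hG hA hGap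
  obtain ⟨CB, UB, hCB, hBB⟩ := hBAD φ τ A c hG hA hGap
  obtain ⟨CW, hCW, hWW⟩ := hWIG φ τ A c hG hA hGap
  obtain ⟨U1, hU1, hII⟩ := hWLI φ τ A hG hA hGap
  obtain ⟨CS, hCS, hSS⟩ := hSHQ φ τ A c hG hA hGap
  have hCLS : CL ≤ 4 * 1024 * 64 * CL * CS := by
    have h1 : CL * 1 ≤ CL * CS := mul_le_mul_of_nonneg_left hCS (by linarith)
    nlinarith
  have hCLS0 : 0 ≤ 4 * 1024 * 64 * CL * CS := by linarith
  refine ⟨CB + CW + 4 * 1024 * 64 * CL * CS, max UB U1, by linarith, by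
    have := le_max_right UB U1
    omega, ?_⟩
  intro u s ρ ρ' m m' Λ' g g' G hu hs hρ hρ' hm hm' hΛ0 hΛ4 hg hg' hg1 hg1' hloc
  have huB : UB ≤ u := (le_max_left _ _).trans hu
  have hu1 : U1 ≤ u := (le_max_right _ _).trans hu
  have hu1000 : 1000 ≤ u := hU1.trans hu1
  have hu' : (1000 : ℝ) ≤ u := by exact_mod_cast hu1000
  have hs' : 8 * (u : ℝ) < s := by exact_mod_cast hs
  set n := u / 10 with hn
  have hn100 : 100 ≤ n := by omega
  set η := et ρ with hηdef
  set η' := et ρ' with hη'def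
  have hη : 0 < η := et_pos ρ
  have hη' : 0 < η' := et_pos ρ'
  set D₀ : ℝ := (2 : ℝ) ^ (-((s : ℝ) / 2)) with hD₀
  set D₁ : ℝ := (2 : ℝ) ^ (-((s : ℝ) / 4)) with hD₁
  have hD₀p : 0 < D₀ := by positivity
  have hD₁p : 0 < D₁ := by positivity
  have hm0 : 1000 ≤ m := by
    refine le_trans ?_ hm
    have h1 : (2 : ℝ) ^ (10 : ℝ) ≤ (2 : ℝ) ^ ((1999 / 2000 : ℝ) * u) := by
      apply Real.rpow_le_rpow_of_exponent_le (by norm_num)
      linarith
    have h2 : (2 : ℝ) ^ (10 : ℝ) = 1024 := by norm_num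
    linarith
  have hm'0 : 0 < m' := lt_of_lt_of_le (by positivity) hm'
  have hmpos : 0 < m := by linarith
  -- the sets
  let X : ℤ → Set Pl := fun k => {x | x ∈ G ∧ m ≤ ((HP c φ τ u η k g x).ncard : ℝ) ∧
    m' ≤ ((Hh c φ τ (u + s) ρ' k g' x).ncard : ℝ)}
  let Bs : ℤ → Set Pl := fun k => {x | n ≤ {i : ℕ | i < u / 10 ∧ TD c φ τ u (qw u i) η D₀ k g x ∧
    ¬ GW c φ τ u (qw u i) η D₁ k g x}.ncard}
  let T : ℤ → ℕ → Set Pl := fun k i => {x | x ∈ X k ∧ ¬ TD c φ τ u (qw u i) η D₀ k g x}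
  let W : ℤ → ℕ → Set Pl := fun k i => {x | x ∈ X k ∧ GW c φ τ u (qw u i) η D₁ k g x}
  have hsub : ∀ k, X k ⊆ Bs k ∪ ((⋃ i ∈ Finset.range n, T k i) ∪ ⋃ i ∈ Finset.range n, W k i) := by
    intro k x hx
    by_cases hall : ∀ i < n, TD c φ τ u (qw u i) η D₀ k g x ∧ ¬ GW c φ τ u (qw u i) η D₁ k g x
    · left
      show n ≤ _
      have e : {i : ℕ | i < u / 10 ∧ TD c φ τ u (qw u i) η D₀ k g x ∧
          ¬ GW c φ τ u (qw u i) η D₁ k g x} = (Finset.range n : Finset ℕ) := by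
        ext i
        simp only [mem_setOf_eq, Finset.coe_range, mem_Iio]
        exact ⟨fun h => h.1, fun h => ⟨h, hall i h⟩⟩
      rw [e, Set.ncard_coe_finset, Finset.card_range]
    · right
      push Not at hall
      obtain ⟨i, hi, h⟩ := hall
      by_cases hTD : TD c φ τ u (qw u i) η D₀ k g x
      · right
        exact mem_iUnion₂.2 ⟨i, Finset.mem_range.2 hi, hx, h hTD⟩
      · left
        exact mem_iUnion₂.2 ⟨i, Finset.mem_range.2 hi, hx, hTD⟩
  have hsum : ∑' k : ℤ, volume (X k) ≤ ∑' k : ℤ, volume (Bs k) +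
      (∑ i ∈ Finset.range n, ∑' k : ℤ, volume (T k i) +
        ∑ i ∈ Finset.range n, ∑' k : ℤ, volume (W k i)) := by
    calc ∑' k : ℤ, volume (X k) ≤ ∑' k : ℤ, (volume (Bs k) +
        (∑ i ∈ Finset.range n, volume (T k i) + ∑ i ∈ Finset.range n, volume (W k i))) := by
          apply ENNReal.tsum_le_tsum
          intro k
          refine (measure_mono (hsub k)).trans ((measure_union_le _ _).trans ?_)
          refine add_le_add le_rfl ((measure_union_le _ _).trans ?_)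
          exact add_le_add (measure_biUnion_finset_le _ _) (measure_biUnion_finset_le _ _)
      _ = _ := by
          rw [ENNReal.tsum_add, ENNReal.tsum_add,
            Summable.tsum_finsetSum (fun _ _ => ENNReal.summable),
            Summable.tsum_finsetSum (fun _ _ => ENNReal.summable)]
  -- first part
  have hpartB : ∑' k : ℤ, volume (Bs k) ≤
      ENNReal.ofReal (CB * (2 : ℝ) ^ (-((s : ℝ) / 20))) * ∫⁻ x, ‖g x‖ₑ ^ 2 := by
    refine (hBB u u n η D₀ D₁ g huB (by omega) (by omega) hη hD₀p.le hD₁p hg).trans ?_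
    apply mul_le_mul_left
    apply ENNReal.ofReal_le_ofReal
    exact num1 u s ρ n CB (by linarith) (by omega) hu1000 hs hρ
  -- Chebyshev
  have hcheb : ∀ q : ℕ, ∑' k : ℤ, ∑ j ∈ Finset.range (2 ^ u), volume (Ez c φ τ u (32 * q) η k g j) ≤
      ENNReal.ofReal (64 / η ^ 2 * CS) * BQ0 τ u g := by
    intro q
    have h1 := (hSS u (32 * q) g (by omega) hg).2.2.1
    calc ∑' k : ℤ, ∑ j ∈ Finset.range (2 ^ u), volume (Ez c φ τ u (32 * q) η k g j)
        ≤ ∑' k : ℤ, ∑ j ∈ Finset.range (2 ^ u), ENNReal.ofReal (64 / η ^ 2) *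
          ∫⁻ x, ‖Zc c φ τ u (32 * q) k j g x‖ₑ ^ 2 := by
          apply ENNReal.tsum_le_tsum
          intro k
          apply Finset.sum_le_sum
          intro j _
          have h2 := cheb (Zc c φ τ u (32 * q) k j g) (meas_Zc c φ τ u (32 * q) k j g hg.1) (η / 8)
            (by positivity)
          have e : 1 / (η / 8) ^ 2 = 64 / η ^ 2 := by
            field_simp
            norm_num
          rw [e] at h2
          exact h2
      _ = ENNReal.ofReal (64 / η ^ 2) * ∑' k : ℤ, ∑ j ∈ Finset.range (2 ^ u),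
          ∫⁻ x, ‖Zc c φ τ u (32 * q) k j g x‖ₑ ^ 2 := by
          simp only [← Finset.mul_sum]
          exact ENNReal.tsum_mul_left
      _ ≤ ENNReal.ofReal (64 / η ^ 2) * (ENNReal.ofReal CS * BQ0 τ u g) := mul_le_mul_right h1 _
      _ = _ := by
          rw [← mul_assoc, ← ENNReal.ofReal_mul (by positivity)]
  -- second part
  have hpartT : ∀ i ∈ Finset.range n, ∑' k : ℤ, volume (T k i) ≤
      ENNReal.ofReal (CL * Λ' / (m' * η' ^ 2) * (1024 / D₀ * (64 / η ^ 2 * CS))) * BQ0 τ u g := by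
    intro i _
    set q := qw u i with hq
    have hk : ∀ k : ℤ, volume (T k i) ≤ ENNReal.ofReal (CL * Λ' / (m' * η' ^ 2)) *
        (ENNReal.ofReal (1024 / D₀) *
          ∑ j ∈ Finset.range (2 ^ u), volume (Ez c φ τ u (32 * q) η k g j)) := by
      intro k
      apply notTD hOVL (2 ^ u) (2 ^ (u + s)) (fun j => Zc c φ τ (u + s) 0 k j g')
        (fun j => meas_Zc c φ τ (u + s) 0 k j g' hg'.1) k q (Ez c φ τ u (32 * q) η k g) (T k i)
        m' η' (CL * Λ') D₀ hm'0 hη' (by positivity) hD₀p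
      · intro x hx
        have := hx.2
        unfold TD at this
        exact (not_le.1 this).le
      · intro x hx
        exact hx.1.2.2
      · intro x hx
        have hl := hloc x hx.1.1
        have hl' : Loc CL Λ' g' x := by
          intro k'
          refine le_trans (lintegral_mono_set (Sq_mono _ _ _ ?_)) (hl k')
          apply mul_le_mul_of_nonneg_right _ (by positivity)
          linarith
        have h := (hLL (u + s) 0 k Λ' g' x (by omega) hΛ0 hg' hg1' hl').1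
        simpa using h
    calc ∑' k : ℤ, volume (T k i) ≤ ∑' k : ℤ, ENNReal.ofReal (CL * Λ' / (m' * η' ^ 2)) *
        (ENNReal.ofReal (1024 / D₀) *
          ∑ j ∈ Finset.range (2 ^ u), volume (Ez c φ τ u (32 * q) η k g j)) :=
          ENNReal.tsum_le_tsum hk
      _ = ENNReal.ofReal (CL * Λ' / (m' * η' ^ 2)) * (ENNReal.ofReal (1024 / D₀) *
          ∑' k : ℤ, ∑ j ∈ Finset.range (2 ^ u), volume (Ez c φ τ u (32 * q) η k g j)) := by
          rw [ENNReal.tsum_mul_left, ENNReal.tsum_mul_left]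
      _ ≤ ENNReal.ofReal (CL * Λ' / (m' * η' ^ 2)) * (ENNReal.ofReal (1024 / D₀) *
          (ENNReal.ofReal (64 / η ^ 2 * CS) * BQ0 τ u g)) :=
          mul_le_mul_right (mul_le_mul_right (hcheb q) _) _
      _ = _ := by
          rw [← mul_assoc, ← mul_assoc, ← ENNReal.ofReal_mul (by positivity),
            ← ENNReal.ofReal_mul (by positivity)]
          congr 2
          ring
  -- third part
  have hpartW : ∀ i ∈ Finset.range n, ∑' k : ℤ, volume (W k i) ≤
      ENNReal.ofReal (CW * D₁ / (m ^ 3 * η ^ 2) * (2 : ℝ) ^ (u + 1)) * BQ0 τ u g := by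
    intro i hi
    have hi' : i < n := Finset.mem_range.1 hi
    obtain ⟨w1, w2, w3, w4⟩ := hII u i hu1 (by omega)
    have hη1 : (2 : ℝ) ^ (-((qw u i : ℕ) : ℤ)) ≤ η := by
      rw [hηdef]
      unfold et
      apply zpow_le_zpow_right₀ (by norm_num)
      omega
    have hD1 : 4000 * D₁ ≤ m := by
      have h1 : D₁ ≤ (2 : ℝ) ^ (-(2 : ℝ)) := by
        rw [hD₁]
        apply Real.rpow_le_rpow_of_exponent_le (by norm_num)
        linarith
      have h2 : (2 : ℝ) ^ (-(2 : ℝ)) = 1 / 4 := by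
        rw [Real.rpow_neg (by norm_num)]
        norm_num
      have h3 : D₁ ≤ 1 / 4 := h1.trans_eq h2
      clear h1 h2
      linarith
    have h := hWW u (qw u i) (u + 1) η D₁ m g (fun k => W k i) (by omega) (by omega) (by omega)
      le_rfl hη1 (et_le_one ρ) hg hg1 hm0 hD₁p hD1 (by
        intro j _
        have h1 := w4 u (sl τ u j) m le_rfl (by omega) hm
        have h2 : (0 : ℝ) ≤ (nn τ u (sl τ u j) (qw u i) : ℝ) := Nat.cast_nonneg _
        linarith) (by
        intro k x hx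
        have hGW := hx.2
        refine ⟨?_, hGW.1, hGW.2.1⟩
        refine hx.1.2.1.trans ?_
        have hfin : (Hw c φ τ u (32 * qw u i) (η / 2) k g x).Finite :=
          (Set.finite_lt_nat (2 ^ u)).subset (fun j hj => hj.1)
        have hsubs : HP c φ τ u η k g x ⊆ Hw c φ τ u (32 * qw u i) (η / 2) k g x :=
          fun j hj => ⟨hj.1, hj.2 _ w1⟩
        exact_mod_cast Set.ncard_le_ncard hsubs hfin)
    have hEX : EX τ u (u + 1) g = 0 := by
      unfold EX
      rw [Finset.Icc_eq_empty (by omega), Finset.sum_empty]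
    rw [hEX, add_zero] at h
    refine h.trans (le_of_eq ?_)
    rw [← mul_assoc, ← ENNReal.ofReal_mul (by positivity)]
  -- end
  have hnat : ∀ (a b : ℝ), 0 ≤ a → (n : ℝ) * a ≤ b * (2 : ℝ) ^ (-((s : ℝ) / 20)) * (2 : ℝ) ^ (-(3 * (u : ℝ))) →
      ∑ _i ∈ Finset.range n, ENNReal.ofReal a * BQ0 τ u g ≤
        ENNReal.ofReal (b * (2 : ℝ) ^ (-((s : ℝ) / 20)) * (2 : ℝ) ^ (-(3 * (u : ℝ)))) * BQ0 τ u g := by
    intro a b ha hab
    rw [Finset.sum_const, Finset.card_range, nsmul_eq_mul, ← mul_assoc, ← ENNReal.ofReal_natCast,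
      ← ENNReal.ofReal_mul (Nat.cast_nonneg _)]
    exact mul_le_mul_left (ENNReal.ofReal_le_ofReal hab) _
  have hT' : ∑ i ∈ Finset.range n, ∑' k : ℤ, volume (T k i) ≤
      ENNReal.ofReal (4 * 1024 * 64 * CL * CS * (2 : ℝ) ^ (-((s : ℝ) / 20)) *
        (2 : ℝ) ^ (-(3 * (u : ℝ)))) * BQ0 τ u g := by
    refine (Finset.sum_le_sum hpartT).trans (hnat _ _ (by positivity) ?_)
    exact num3 u s ρ ρ' m' Λ' CL CS (by linarith) (by linarith) hΛ0 hΛ4 hu1000 hs hρ hρ' hm'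
  have hW' : ∑ i ∈ Finset.range n, ∑' k : ℤ, volume (W k i) ≤
      ENNReal.ofReal (CW * (2 : ℝ) ^ (-((s : ℝ) / 20)) *
        (2 : ℝ) ^ (-(3 * (u : ℝ)))) * BQ0 τ u g := by
    refine (Finset.sum_le_sum hpartW).trans (hnat _ _ (by positivity) ?_)
    exact num2 u s ρ m CW (by linarith) hu1000 hs hρ hm
  have hCB0 : 0 ≤ CB := by linarith
  have hCW0 : 0 ≤ CW := by linarith
  calc ∑' k : ℤ, volume (X k) ≤ _ := hsum
    _ ≤ ENNReal.ofReal (CB * (2 : ℝ) ^ (-((s : ℝ) / 20))) * (∫⁻ x, ‖g x‖ₑ ^ 2) +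
        (ENNReal.ofReal (4 * 1024 * 64 * CL * CS * (2 : ℝ) ^ (-((s : ℝ) / 20)) *
          (2 : ℝ) ^ (-(3 * (u : ℝ)))) * BQ0 τ u g +
        ENNReal.ofReal (CW * (2 : ℝ) ^ (-((s : ℝ) / 20)) *
          (2 : ℝ) ^ (-(3 * (u : ℝ)))) * BQ0 τ u g) := add_le_add hpartB (add_le_add hT' hW')
    _ = ENNReal.ofReal (CB * (2 : ℝ) ^ (-((s : ℝ) / 20))) * (∫⁻ x, ‖g x‖ₑ ^ 2) +
        ENNReal.ofReal ((4 * 1024 * 64 * CL * CS + CW) * (2 : ℝ) ^ (-((s : ℝ) / 20))) *
          (ENNReal.ofReal ((2 : ℝ) ^ (-(3 * (u : ℝ)))) * BQ0 τ u g) := by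
        rw [← add_mul, ← ENNReal.ofReal_add (by positivity) (by positivity), ← mul_assoc,
          ← ENNReal.ofReal_mul (by positivity)]
        congr 3
        ring
    _ ≤ ENNReal.ofReal ((CB + CW + 4 * 1024 * 64 * CL * CS) * (2 : ℝ) ^ (-((s : ℝ) / 20))) *
          (∫⁻ x, ‖g x‖ₑ ^ 2) +
        ENNReal.ofReal ((CB + CW + 4 * 1024 * 64 * CL * CS) * (2 : ℝ) ^ (-((s : ℝ) / 20))) *
          (ENNReal.ofReal ((2 : ℝ) ^ (-(3 * (u : ℝ)))) * BQ0 τ u g) := by
        apply add_le_add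
        · apply mul_le_mul_left
          apply ENNReal.ofReal_le_ofReal
          apply mul_le_mul_of_nonneg_right _ (by positivity)
          linarith
        · apply mul_le_mul_left
          apply ENNReal.ofReal_le_ofReal
          apply mul_le_mul_of_nonneg_right _ (by positivity)
          linarith
    _ = ENNReal.ofReal ((CB + CW + 4 * 1024 * 64 * CL * CS) * (2 : ℝ) ^ (-((s : ℝ) / 20))) *
        (ENNReal.ofReal ((2 : ℝ) ^ (-(3 * (u : ℝ)))) * BQ0 τ u g + ∫⁻ x, ‖g x‖ₑ ^ 2) := by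
        rw [mul_add, add_comm]

end Pool.Agent.Helper27.P3
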